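import Pool.Agent.Y354.DC3.Stm3

/-!
Polynomial inequalities on the unit interval, second part.
-/

set_option autoImplicit false

namespace Pool.Agent.Y907.DC4

open Pool.Agent.Y354.DC3

theorem ps_ge (z s : ℝ) (hz : 0 ≤ z) (hs : 0 ≤ s) (h : s = 1 - z) : 1 ≤ ps z := by
  have e : ps z - 1 =
    13 / 50 * s ^ 3 + 13 / 50 * z * s ^ 2 + 3 / 25 * z ^ 2 * s := by
    rw [h]
    unfold ps
    ring
  have e2 : 0 ≤ ps z - 1 := by
    rw [e]
    positivity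
  linarith

theorem ps_le (z s : ℝ) (hz : 0 ≤ z) (hs : 0 ≤ s) (h : s = 1 - z) : ps z ≤ 63 / 50 := by
  have e : 63 / 50 - ps z =
    13 / 25 * z * s ^ 2 + 33 / 50 * z ^ 2 * s + 13 / 50 * z ^ 3 := by
    rw [h]
    unfold ps
    ring
  have e2 : 0 ≤ 63 / 50 - ps z := by
    rw [e]
    positivity
  linarith

theorem dPb_ge (z s : ℝ) (hz : 0 ≤ z) (hs : 0 ≤ s) (h : s = 1 - z) : 13 / 25 ≤ dPb z := by
  have e : dPb z - 13 / 25 =
    37 / 50 * s ^ 3 + 59 / 50 * z * s ^ 2 + 32 / 25 * z ^ 2 * s + 9 / 25 * z ^ 3 := by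
    rw [h]
    unfold dPb
    ring
  have e2 : 0 ≤ dPb z - 13 / 25 := by
    rw [e]
    positivity
  linarith

theorem Pb_le (z s : ℝ) (hz : 0 ≤ z) (hs : 0 ≤ s) (h : s = 1 - z) : Pb z ≤ 1 := by
  have e : 1 - Pb z =
    1 * s ^ 4 + 137 / 50 * z * s ^ 3 + 137 / 50 * z ^ 2 * s ^ 2 + 22 / 25 * z ^ 3 * s := by
    rw [h]
    unfold Pb
    ring
  have e2 : 0 ≤ 1 - Pb z := by
    rw [e]
    positivity
  linarith

theorem main_low (z s t : ℝ) (hs : 0 ≤ s) (ht : 0 ≤ t) (h : z = s / 2) (h' : t = 1 - s) :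
    15 / 2 + 1 / 10 * z * (17 / 2 + ps z) ^ 2 + 1 / 200 * mm z ≤
      2 * mm z * dPb z + 4 * ps z * (1 - Pb z) := by
  have e : 2 * mm z * dPb z + 4 * ps z * (1 - Pb z) -
      (15 / 2 + 1 / 10 * z * (17 / 2 + ps z) ^ 2 + 1 / 200 * mm z) =
    11 / 200 * t ^ 10 + 122067 / 100000 * s * t ^ 9 + 660519 / 100000 * s ^ 2 * t ^ 8 +
    85149 / 5000 * s ^ 3 * t ^ 7 + 2493107 / 100000 * s ^ 4 * t ^ 6 +
    17497879 / 800000 * s ^ 5 * t ^ 5 + 362741 / 32000 * s ^ 6 * t ^ 4 +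
    2521149 / 800000 * s ^ 7 * t ^ 3 + 277927 / 800000 * s ^ 8 * t ^ 2 +
    47 / 10000 * s ^ 9 * t + 463 / 100000 * s ^ 10 := by
    rw [h, h']
    unfold mm ps Pb dPb
    ring
  have e2 : 0 ≤ 2 * mm z * dPb z + 4 * ps z * (1 - Pb z) -
      (15 / 2 + 1 / 10 * z * (17 / 2 + ps z) ^ 2 + 1 / 200 * mm z) := by
    rw [e]
    positivity
  linarith

theorem main_high (z s t : ℝ) (hs : 0 ≤ s) (ht : 0 ≤ t) (h : z = (1 + s) / 2) (h' : t = 1 - s) :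
    15 / 2 + 1 / 10 * z * (17 / 2 + ps z) ^ 2 + 1 / 200 * mm z ≤
      2 * mm z * dPb z + 4 * ps z * (1 - Pb z) := by
  have e : 2 * mm z * dPb z + 4 * ps z * (1 - Pb z) -
      (15 / 2 + 1 / 10 * z * (17 / 2 + ps z) ^ 2 + 1 / 200 * mm z) =
    463 / 100000 * t ^ 7 + 7401 / 100000 * s * t ^ 6 + 688231 / 800000 * s ^ 2 * t ^ 5 +
    1347031 / 400000 * s ^ 3 * t ^ 4 + 144153 / 25000 * s ^ 4 * t ^ 3 +
    233687 / 50000 * s ^ 5 * t ^ 2 + 6529 / 4000 * s ^ 6 * t + 59 / 400 * s ^ 7 := by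
    rw [h, h']
    unfold mm ps Pb dPb
    ring
  have e2 : 0 ≤ 2 * mm z * dPb z + 4 * ps z * (1 - Pb z) -
      (15 / 2 + 1 / 10 * z * (17 / 2 + ps z) ^ 2 + 1 / 200 * mm z) := by
    rw [e]
    positivity
  linarith

theorem Pb_eq (z : ℝ) : Pb z = z * ps z := by
  unfold Pb ps
  ring

theorem s_po2 : S_PO2 := by
  refine ⟨fun z => ⟨Pb_eq z, by unfold Pb mm ps; ring⟩, by unfold Pb; norm_num, ?_, ?_, ?_⟩
  · intro z h0 h1
    have h2 : 0 ≤ 1 - z := sub_nonneg.2 h1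
    have h3 := ps_ge z _ h0 h2 rfl
    have h4 := dPb_ge z _ h0 h2 rfl
    refine ⟨?_, Pb_le z _ h0 h2 rfl, by linarith, h3, ps_le z _ h0 h2 rfl, ?_⟩
    · rw [Pb_eq]
      exact mul_nonneg h0 (by linarith)
    · rcases le_total z (1 / 2) with h | h
      · exact main_low z (2 * z) (1 - 2 * z) (by linarith) (by linarith) (by ring) rfl
      · exact main_high z (2 * z - 1) (2 - 2 * z) (by linarith) (by linarith) (by ring) (by ring)
  · intro z w h0 hzw h1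
    have hz1 : 0 ≤ 1 - z := by linarith
    have hw1 : 0 ≤ 1 - w := by linarith
    have hw0 : 0 ≤ w := h0.trans hzw
    have e : Pb w - Pb z - (dPb z * (w - z) - 13 / 25 * (w - z) ^ 2) =
        (w - z) ^ 2 * (19 / 50 * (w + 2 * z) -
          6 / 50 * (w ^ 2 + 2 * z * w + 3 * z ^ 2)) := by
      unfold Pb dPb
      ring
    have e1 : 0 ≤ 19 / 50 * (w + 2 * z) -
          6 / 50 * (w ^ 2 + 2 * z * w + 3 * z ^ 2) := by
      nlinarith [mul_nonneg hw0 hw1, mul_nonneg h0 hw1, mul_nonneg h0 hz1]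
    have e2 : 0 ≤ Pb w - Pb z - (dPb z * (w - z) - 13 / 25 * (w - z) ^ 2) := by
      rw [e]
      exact mul_nonneg (sq_nonneg _) e1
    refine ⟨?_, by linarith⟩
    have h4 := dPb_ge z _ h0 hz1 rfl
    have h5 : 0 ≤ (w - z) * (dPb z - 13 / 25 * (w - z)) :=
      mul_nonneg (sub_nonneg.2 hzw) (by linarith)
    nlinarith
  · intro z h0 h1
    have e : Pb z - (5 / 4 * z + z / 200) = z * (1 / 200 - 26 / 50 * z +
        z ^ 2 * (19 / 50 - 6 / 50 * z)) := by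
      unfold Pb
      ring
    have e1 : 0 ≤ z ^ 2 * (19 / 50 - 6 / 50 * z) :=
      mul_nonneg (sq_nonneg _) (by linarith)
    have e2 : 0 ≤ Pb z - (5 / 4 * z + z / 200) := by
      rw [e]
      exact mul_nonneg h0 (by linarith)
    linarith

end Pool.Agent.Y907.DC4
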